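import Mathlib

/-!
# Second order arithmetic over omega models: algebraic formulas and definability (MP_8dbd20_lc)

Formulas have ONE number variable and ONE real variable (both may code several objects).
`Sat S phi n X` is satisfaction over a structure `S = (U, C, Pm)`: set quantifiers range over `U`,
`C` is an extra predicate, `Pm` is the class of allowed parameters.
-/

namespace Pool.Agent.Lib.Z2

open Nat.Partrec (Code)

/-- The join of two reals. -/
def jn (X Y : Set ℕ) : Set ℕ := {k | if k % 2 = 0 then k / 2 ∈ X else k / 2 ∈ Y}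

/-- The preimage of `X` under the partial map coded by `c` (value `m + 1` stands for `m`,
value `0` for: not in the preimage). -/
def pre (c : Code) (X : Set ℕ) : Set ℕ := {k | ∃ m, m + 1 ∈ c.eval k ∧ m ∈ X}

/-- The section `(X)_n`. -/
def sec (X : Set ℕ) (n : ℕ) : Set ℕ := {m | Nat.pair n m ∈ X}

/-- Algebraic formulas. -/
inductive Fa : Type
  | mem : Fa
  | isC : Fa
  | neg (φ : Fa) : Fa
  | and (φ ψ : Fa) : Fa
  | exN (φ : Fa) : Fa
  | exR (φ : Fa) : Fa
  | subN (c : Code) (φ : Fa) : Fa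
  | subR (c : Code) (φ : Fa) : Fa

/-- A structure: the range `U` of the set quantifiers, the predicate `C`, the parameters `Pm`. -/
structure Str where
  U : Set (Set ℕ)
  C : Set (Set ℕ)
  Pm : Set (Set ℕ)

/-- Satisfaction. -/
def Sat (S : Str) : Fa → ℕ → Set ℕ → Prop
  | .mem, n, X => n ∈ X
  | .isC, _, X => X ∈ S.C
  | .neg φ, n, X => ¬ Sat S φ n X
  | .and φ ψ, n, X => Sat S φ n X ∧ Sat S ψ n X
  | .exN φ, n, X => ∃ m, Sat S φ (Nat.pair m n) X
  | .exR φ, n, X => ∃ Y ∈ S.U, Sat S φ n (jn Y X)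
  | .subN c φ, n, X => ∃ m ∈ c.eval n, Sat S φ m X
  | .subR c φ, n, X => Sat S φ n (pre c X)

/-- Closure conditions on a structure. -/
class Good (S : Str) : Prop where
  cu : ∀ X ∈ S.C, X ∈ S.U
  pu : ∀ X ∈ S.Pm, X ∈ S.U
  pe : (∅ : Set ℕ) ∈ S.Pm
  pj : ∀ X ∈ S.Pm, ∀ Y ∈ S.Pm, jn X Y ∈ S.Pm
  uj : ∀ X ∈ S.U, ∀ Y ∈ S.U, jn X Y ∈ S.U
  up : ∀ c, ∀ X ∈ S.U, pre c X ∈ S.U
  uc : ∀ X ∈ S.U, Xᶜ ∈ S.U
  ux : ∀ X ∈ S.U, {n | ∃ m, Nat.pair m n ∈ X} ∈ S.U

theorem Good.ue (S : Str) [Good S] : (∅ : Set ℕ) ∈ S.U := Good.pu _ Good.pe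

/-! ### Basic computations with joins and preimages -/

theorem mem_jn_even (X Y : Set ℕ) (k : ℕ) : 2 * k ∈ jn X Y ↔ k ∈ X := by
  simp [jn]

theorem mem_jn_odd (X Y : Set ℕ) (k : ℕ) : 2 * k + 1 ∈ jn X Y ↔ k ∈ Y := by
  have h1 : (2 * k + 1) % 2 = 1 := by omega
  have h2 : (2 * k + 1) / 2 = k := by omega
  simp [jn, h2]

theorem jn_ext {X Y Z : Set ℕ} (h0 : ∀ k, 2 * k ∈ Z ↔ k ∈ X) (h1 : ∀ k, 2 * k + 1 ∈ Z ↔ k ∈ Y) :
    Z = jn X Y := by
  ext k
  rcases Nat.even_or_odd' k with ⟨m, rfl | rfl⟩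
  · rw [h0, mem_jn_even]
  · rw [h1, mem_jn_odd]

/-- The left half of a real. -/
def lf (X : Set ℕ) : Set ℕ := {k | 2 * k ∈ X}
/-- The right half of a real. -/
def rt (X : Set ℕ) : Set ℕ := {k | 2 * k + 1 ∈ X}

@[simp] theorem lf_jn (X Y : Set ℕ) : lf (jn X Y) = X := by
  ext k; exact mem_jn_even X Y k
@[simp] theorem rt_jn (X Y : Set ℕ) : rt (jn X Y) = Y := by
  ext k; exact mem_jn_odd X Y k
theorem jn_lf_rt (X : Set ℕ) : jn (lf X) (rt X) = X :=
  (jn_ext (fun _ => Iff.rfl) (fun _ => Iff.rfl)).symm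

theorem jn_inj {X Y X' Y' : Set ℕ} (h : jn X Y = jn X' Y') : X = X' ∧ Y = Y' :=
  ⟨by rw [← lf_jn X Y, h, lf_jn], by rw [← rt_jn X Y, h, rt_jn]⟩

/-- The preimage of `X` under a partial map. -/
def prf (f : ℕ → Option ℕ) (X : Set ℕ) : Set ℕ := {k | ∃ m, f k = some m ∧ m ∈ X}

theorem exists_code_nat {f : ℕ → ℕ} (hf : Primrec f) : ∃ c : Code, ∀ n, c.eval n = Part.some (f n) := by
  obtain ⟨c, hc⟩ := Code.exists_code.1 (Nat.Partrec.of_primrec (Primrec.nat_iff.1 hf))
  exact ⟨c, fun n => by rw [hc]; rfl⟩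

theorem exists_code_opt {f : ℕ → Option ℕ} (hf : Primrec f) :
    ∃ c : Code, ∀ X, pre c X = prf f X := by
  have h1 : Primrec (fun n => Encodable.encode (f n)) := Primrec.encode.comp hf
  obtain ⟨c, hc⟩ := exists_code_nat h1
  refine ⟨c, fun X => ?_⟩
  ext k
  simp only [pre, prf, Set.mem_ofPred_eq]
  rw [hc k]
  constructor
  · rintro ⟨m, hm, hX⟩
    refine ⟨m, ?_, hX⟩
    have : m + 1 = Encodable.encode (f k) := by simpa using hm
    cases hfk : f k with
    | none => rw [hfk] at this; simp at this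
    | some a => rw [hfk] at this; simp at this; rw [this]
  · rintro ⟨m, hm, hX⟩
    exact ⟨m, by rw [hm]; simp, hX⟩

theorem Good.prf_mem (S : Str) [Good S] {f : ℕ → Option ℕ} (hf : Primrec f) {X : Set ℕ} (hX : X ∈ S.U) :
    prf f X ∈ S.U := by
  obtain ⟨c, hc⟩ := exists_code_opt hf
  rw [← hc]; exact Good.up c X hX

/-! ### The raw class of definable relations between a number and a real -/

/-- `Raw S Q`: the relation `Q` between a number and a real is definable over `S`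
(with a parameter from `S.Pm`). -/
def Raw (S : Str) (Q : ℕ → Set ℕ → Prop) : Prop :=
  ∃ φ : Fa, ∃ A ∈ S.Pm, ∀ n, ∀ X ∈ S.U, Q n X ↔ Sat S φ n (jn A X)

theorem prim_left : Primrec (fun k : ℕ => k.unpair.1) := Primrec.fst.comp Primrec.unpair
theorem prim_right : Primrec (fun k : ℕ => k.unpair.2) := Primrec.snd.comp Primrec.unpair
theorem prim_half : Primrec (fun k : ℕ => k / 2) := Primrec.nat_div.comp Primrec.id (Primrec.const 2)
theorem prim_mod : Primrec (fun k : ℕ => k % 2) := Primrec.nat_mod.comp Primrec.id (Primrec.const 2)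
theorem prim_dbl : Primrec (fun k : ℕ => 2 * k) := Primrec.nat_mul.comp (Primrec.const 2) Primrec.id
theorem prim_dbl1 : Primrec (fun k : ℕ => 2 * k + 1) := Primrec.succ.comp prim_dbl

/-- Definition by cases on the parity. -/
theorem prim_par {f g : ℕ → Option ℕ} (hf : Primrec f) (hg : Primrec g) :
    Primrec (fun k : ℕ => if k % 2 = 0 then f (k / 2) else g (k / 2)) := by
  refine Primrec.ite (Primrec.eq.comp prim_mod (Primrec.const 0)) (hf.comp prim_half) (hg.comp prim_half)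

/-- the partial map which acts on the second half of a join. -/
theorem prf_on_right {g : ℕ → Option ℕ} (hg : Primrec g) :
    ∃ g' : ℕ → Option ℕ, Primrec g' ∧ ∀ A X, prf g' (jn A X) = jn A (prf g X) := by
  refine ⟨fun k => if k % 2 = 0 then some (2 * (k / 2)) else (g (k / 2)).map (fun m => 2 * m + 1), ?_, ?_⟩
  · refine prim_par (f := fun j => some (2 * j)) (g := fun j => (g j).map (fun m => 2 * m + 1)) ?_ ?_
    · exact Primrec.option_some.comp prim_dbl
    · exact Primrec.option_map hg (prim_dbl1.comp Primrec.snd).to₂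
  · intro A X
    apply jn_ext
    · intro k
      simp only [prf, Set.mem_ofPred_eq]
      simp [mem_jn_even]
    · intro k
      have h2 : (2 * k + 1) / 2 = k := by omega
      have h3 : ¬ ((2 * k + 1) % 2 = 0) := by omega
      simp only [prf, Set.mem_ofPred_eq, if_neg h3, h2]
      constructor
      · rintro ⟨m, hm, hX⟩
        rcases hgk : g k with _ | b
        · rw [hgk] at hm; simp at hm
        · rw [hgk] at hm
          simp only [Option.map_some, Option.some.injEq] at hm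
          subst hm
          exact ⟨b, rfl, (mem_jn_odd A X b).1 hX⟩
      · rintro ⟨m, hm, hX⟩
        exact ⟨2 * m + 1, by rw [hm]; rfl, (mem_jn_odd A X m).2 hX⟩

namespace Raw

variable {S : Str}

theorem congr {Q Q' : ℕ → Set ℕ → Prop} (h : Raw S Q) (e : ∀ n, ∀ X ∈ S.U, Q' n X ↔ Q n X) :
    Raw S Q' := by
  obtain ⟨φ, A, hA, hφ⟩ := h
  exact ⟨φ, A, hA, fun n X hX => (e n X hX).trans (hφ n X hX)⟩

theorem not {Q : ℕ → Set ℕ → Prop} (h : Raw S Q) : Raw S (fun n X => ¬ Q n X) := by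
  obtain ⟨φ, A, hA, hφ⟩ := h
  exact ⟨.neg φ, A, hA, fun n X hX => not_congr (hφ n X hX)⟩

/-- Change of the parameter: a formula with parameter `A` is one with parameter `jn A B`. -/
theorem sub_left (φ : Fa) : ∃ φ', ∀ (S : Str) n A B X, Sat S φ' n (jn (jn A B) X) ↔ Sat S φ n (jn A X) := by
  obtain ⟨c, hc⟩ := exists_code_opt (f := fun k => if k % 2 = 0 then some (2 * (2 * (k / 2))) else some (2 * (k / 2) + 1))
    (prim_par (f := fun j => some (2 * (2 * j))) (g := fun j => some (2 * j + 1))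
      (Primrec.option_some.comp (prim_dbl.comp prim_dbl)) (Primrec.option_some.comp prim_dbl1))
  refine ⟨.subR c φ, fun S n A B X => ?_⟩
  have : pre c (jn (jn A B) X) = jn A X := by
    rw [hc]
    apply jn_ext
    · intro k
      simp only [prf, Set.mem_ofPred_eq]
      simp [mem_jn_even]
    · intro k
      have h2 : (2 * k + 1) / 2 = k := by omega
      have h3 : ¬ ((2 * k + 1) % 2 = 0) := by omega
      simp only [prf, Set.mem_ofPred_eq, if_neg h3, h2]
      simp [mem_jn_odd]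
  simp only [Sat, this]

theorem sub_right (φ : Fa) : ∃ φ', ∀ (S : Str) n A B X, Sat S φ' n (jn (jn A B) X) ↔ Sat S φ n (jn B X) := by
  obtain ⟨c, hc⟩ := exists_code_opt (f := fun k => if k % 2 = 0 then some (2 * (2 * (k / 2) + 1)) else some (2 * (k / 2) + 1))
    (prim_par (f := fun j => some (2 * (2 * j + 1))) (g := fun j => some (2 * j + 1))
      (Primrec.option_some.comp (prim_dbl.comp prim_dbl1)) (Primrec.option_some.comp prim_dbl1))
  refine ⟨.subR c φ, fun S n A B X => ?_⟩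
  have : pre c (jn (jn A B) X) = jn B X := by
    rw [hc]
    apply jn_ext
    · intro k
      simp only [prf, Set.mem_ofPred_eq]
      simp [mem_jn_even, mem_jn_odd]
    · intro k
      have h2 : (2 * k + 1) / 2 = k := by omega
      have h3 : ¬ ((2 * k + 1) % 2 = 0) := by omega
      simp only [prf, Set.mem_ofPred_eq, if_neg h3, h2]
      simp [mem_jn_odd]
  simp only [Sat, this]

theorem and [Good S] {Q Q' : ℕ → Set ℕ → Prop} (h : Raw S Q) (h' : Raw S Q') :
    Raw S (fun n X => Q n X ∧ Q' n X) := by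
  obtain ⟨φ, A, hA, hφ⟩ := h
  obtain ⟨ψ, B, hB, hψ⟩ := h'
  obtain ⟨φ', hφ'⟩ := sub_left φ
  obtain ⟨ψ', hψ'⟩ := sub_right ψ
  refine ⟨.and φ' ψ', jn A B, Good.pj A hA B hB, fun n X hX => ?_⟩
  simp only [Sat]
  rw [hφ', hψ', hφ n X hX, hψ n X hX]

/-- Substitution of primitive recursive maps. -/
theorem sub [Good S] {Q : ℕ → Set ℕ → Prop} (h : Raw S Q) {f : ℕ → ℕ} (hf : Primrec f)
    {g : ℕ → Option ℕ} (hg : Primrec g) : Raw S (fun n X => Q (f n) (prf g X)) := by
  obtain ⟨φ, A, hA, hφ⟩ := h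
  obtain ⟨c, hc⟩ := exists_code_nat hf
  obtain ⟨g', hg', hgg⟩ := prf_on_right hg
  obtain ⟨d, hd⟩ := exists_code_opt hg'
  refine ⟨.subN c (.subR d φ), A, hA, fun n X hX => ?_⟩
  simp only [Sat]
  rw [hc n, hd, hgg, hφ (f n) (prf g X) (Good.prf_mem S hg hX)]
  simp

theorem exN {Q : ℕ → Set ℕ → Prop} (h : Raw S Q) : Raw S (fun n X => ∃ m, Q (Nat.pair m n) X) := by
  obtain ⟨φ, A, hA, hφ⟩ := h
  refine ⟨.exN φ, A, hA, fun n X hX => ?_⟩
  simp only [Sat]
  exact exists_congr (fun m => hφ _ X hX)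

/-- rearrangement `Y ⊕ (A ⊕ X) ↦ A ⊕ (Y ⊕ X)`. -/
theorem rearr (φ : Fa) : ∃ φ', ∀ (S : Str) n A Y X, Sat S φ' n (jn Y (jn A X)) ↔ Sat S φ n (jn A (jn Y X)) := by
  have hp : Primrec (fun k : ℕ => if k % 2 = 0 then some (2 * (2 * (k / 2)) + 1)
      else (if (k / 2) % 2 = 0 then some (2 * ((k / 2) / 2)) else some (2 * (2 * ((k / 2) / 2) + 1) + 1))) := by
    refine prim_par (f := fun j => some (2 * (2 * j) + 1))
      (g := fun j => if j % 2 = 0 then some (2 * (j / 2)) else some (2 * (2 * (j / 2) + 1) + 1)) ?_ ?_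
    · exact Primrec.option_some.comp (prim_dbl1.comp prim_dbl)
    · exact prim_par (f := fun i => some (2 * i)) (g := fun i => some (2 * (2 * i + 1) + 1))
        (Primrec.option_some.comp prim_dbl) (Primrec.option_some.comp (prim_dbl1.comp prim_dbl1))
  obtain ⟨c, hc⟩ := exists_code_opt hp
  refine ⟨.subR c φ, fun S n A Y X => ?_⟩
  have : pre c (jn Y (jn A X)) = jn A (jn Y X) := by
    rw [hc]
    apply jn_ext
    · intro k
      simp only [prf, Set.mem_ofPred_eq]
      simp [mem_jn_even, mem_jn_odd]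
    · intro k
      have h2 : (2 * k + 1) / 2 = k := by omega
      have h3 : ¬ ((2 * k + 1) % 2 = 0) := by omega
      simp only [prf, Set.mem_ofPred_eq, if_neg h3, h2]
      rcases Nat.even_or_odd' k with ⟨m, rfl | rfl⟩
      · have h4 : 2 * m % 2 = 0 := by omega
        have h5 : 2 * m / 2 = m := by omega
        simp [h4, h5, mem_jn_even]
      · have h4 : ¬ ((2 * m + 1) % 2 = 0) := by omega
        have h5 : (2 * m + 1) / 2 = m := by omega
        simp [if_neg h4, h5, mem_jn_odd]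
  simp only [Sat, this]

theorem exR {Q : ℕ → Set ℕ → Prop} [Good S] (h : Raw S Q) :
    Raw S (fun n X => ∃ Y ∈ S.U, Q n (jn Y X)) := by
  obtain ⟨φ, A, hA, hφ⟩ := h
  obtain ⟨φ', hφ'⟩ := rearr φ
  refine ⟨.exR φ', A, hA, fun n X hX => ?_⟩
  simp only [Sat]
  refine exists_congr (fun Y => and_congr_right (fun hY => ?_))
  rw [hφ' S n A Y X]
  exact hφ n (jn Y X) (Good.uj Y hY X hX)


theorem memR [Good S] : Raw S (fun n X => n ∈ X) := by
  have hp : Primrec (fun k : ℕ => 2 * k + 1) := prim_dbl1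
  obtain ⟨c, hc⟩ := exists_code_nat hp
  refine ⟨.subN c .mem, ∅, Good.pe, fun n X hX => ?_⟩
  simp only [Sat]
  rw [hc n]
  simp [mem_jn_odd]

theorem memA [Good S] {A : Set ℕ} (hA : A ∈ S.Pm) : Raw S (fun n _ => n ∈ A) := by
  obtain ⟨c, hc⟩ := exists_code_nat prim_dbl
  refine ⟨.subN c .mem, A, hA, fun n X hX => ?_⟩
  simp only [Sat]
  rw [hc n]
  simp [mem_jn_even]

theorem isC [Good S] : Raw S (fun _ X => X ∈ S.C) := by
  obtain ⟨c, hc⟩ := exists_code_opt (f := fun k => some (2 * k + 1)) (Primrec.option_some.comp prim_dbl1)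
  refine ⟨.subR c .isC, ∅, Good.pe, fun n X hX => ?_⟩
  simp only [Sat]
  have : pre c (jn ∅ X) = X := by
    rw [hc]
    ext k
    simp [prf, mem_jn_odd]
  rw [this]

end Raw

end Pool.Agent.Lib.Z2
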