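import Pool.Agent.Lib.Z2.Ops

/-!
# The language of second order arithmetic, omega models of Z_2 (MP_8dbd20_lc)

These are the definitions used in the final statement.
-/

namespace Pool.Agent.Lib.Z2

/-- Number terms. -/
inductive Tm : Type
  | var (i : ℕ) : Tm
  | zero : Tm
  | one : Tm
  | add (s t : Tm) : Tm
  | mul (s t : Tm) : Tm

/-- Formulas of second order arithmetic (de Bruijn variables of two sorts). -/
inductive Fm : Type
  | eq (s t : Tm) : Fm
  | lt (s t : Tm) : Fm
  | mem (t : Tm) (i : ℕ) : Fm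
  | neg (φ : Fm) : Fm
  | and (φ ψ : Fm) : Fm
  | allN (φ : Fm) : Fm
  | allS (φ : Fm) : Fm

/-- Extend an assignment by a new value of variable `0`. -/
def ex {α : Type} (a : α) (e : ℕ → α) : ℕ → α
  | 0 => a
  | i + 1 => e i

/-- Values of terms. -/
def Tm.val (e : ℕ → ℕ) : Tm → ℕ
  | .var i => e i
  | .zero => 0
  | .one => 1
  | .add s t => s.val e + t.val e
  | .mul s t => s.val e * t.val e

/-- Satisfaction in the omega model with set part `M`. -/
def Fm.Sat (M : Set (Set ℕ)) : Fm → (ℕ → ℕ) → (ℕ → Set ℕ) → Prop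
  | .eq s t, e, _ => s.val e = t.val e
  | .lt s t, e, _ => s.val e < t.val e
  | .mem t i, e, E => t.val e ∈ E i
  | .neg φ, e, E => ¬ φ.Sat M e E
  | .and φ ψ, e, E => φ.Sat M e E ∧ ψ.Sat M e E
  | .allN φ, e, E => ∀ n, φ.Sat M (ex n e) E
  | .allS φ, e, E => ∀ X ∈ M, φ.Sat M e (ex X E)

/-- Arithmetical formulas: no set quantifiers. -/
def Fm.Ar : Fm → Prop
  | .eq _ _ => True
  | .lt _ _ => True
  | .mem _ _ => True
  | .neg φ => φ.Ar
  | .and φ ψ => φ.Ar ∧ ψ.Ar
  | .allN φ => φ.Ar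
  | .allS _ => False

/-- The existential set quantifier. -/
def Fm.exS (φ : Fm) : Fm := .neg (.allS (.neg φ))

/-- `M` (with the true natural numbers) is a model of full second order arithmetic
(all instances of comprehension; induction is automatic for omega models). -/
def IsZ2 (M : Set (Set ℕ)) : Prop :=
  ∀ (φ : Fm) (e : ℕ → ℕ) (E : ℕ → Set ℕ), (∀ i, E i ∈ M) → {n | φ.Sat M (ex n e) E} ∈ M

/-- The choice scheme. -/
def HasAC (M : Set (Set ℕ)) : Prop :=
  ∀ (φ : Fm) (e : ℕ → ℕ) (E : ℕ → Set ℕ), (∀ i, E i ∈ M) →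
    (∀ n, ∃ X ∈ M, φ.Sat M (ex n e) (ex X E)) → ∃ Z ∈ M, ∀ n, φ.Sat M (ex n e) (ex (sec Z n) E)

/-- Dependent choice for the formula `φ (X, Y)` (`X` is set variable `1`, `Y` is set variable `0`)
with the parameters `e`, `E`. -/
def DCfor (M : Set (Set ℕ)) (φ : Fm) (e : ℕ → ℕ) (E : ℕ → Set ℕ) : Prop :=
  (∀ X ∈ M, ∃ Y ∈ M, φ.Sat M e (ex Y (ex X E))) →
    ∃ Z ∈ M, ∀ n, φ.Sat M e (ex (sec Z (n + 1)) (ex (sec Z n) E))

/-- The scheme of dependent choice for `Pi^1_2` formulas. -/
def HasPi12DC (M : Set (Set ℕ)) : Prop :=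
  ∀ (θ : Fm) (e : ℕ → ℕ) (E : ℕ → Set ℕ), θ.Ar → (∀ i, E i ∈ M) → DCfor M (.allS (.exS θ)) e E

/-- beta models: `Sigma^1_1` formulas are absolute. -/
def IsBeta (M : Set (Set ℕ)) : Prop :=
  ∀ (θ : Fm) (e : ℕ → ℕ) (E : ℕ → Set ℕ), θ.Ar → (∀ i, E i ∈ M) →
    (θ.exS.Sat M e E ↔ θ.exS.Sat Set.univ e E)

/-! ### Definability of satisfaction -/

section
variable {S : Str} {α : Type} [Shp α]

theorem df_val [Good S] (t : Tm) {e : α → ℕ → ℕ} (he : ∀ i, DF S (fun a => e a i)) :
    DF S (fun a => t.val (e a)) := by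
  induction t with
  | var i => exact he i
  | zero => exact DF.constN 0
  | one => exact DF.constN 1
  | add s t hs ht => exact DF.add hs ht
  | mul s t hs ht => exact DF.mul hs ht

/-- Every formula of second order arithmetic defines a definable predicate. -/
theorem dfn_sat [Good S] (φ : Fm) : ∀ {α : Type} [Shp α] {e : α → ℕ → ℕ} {E : α → ℕ → Set ℕ},
    (∀ i, DF S (fun a => e a i)) → (∀ i, DF S (fun a => E a i)) → Dfn S (fun a => φ.Sat S.U (e a) (E a)) := by
  induction φ with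
  | eq s t => intro α _ e E he hE; exact Dfn.eq (df_val s he) (df_val t he)
  | lt s t => intro α _ e E he hE; exact Dfn.lt (df_val s he) (df_val t he)
  | mem t i => intro α _ e E he hE; exact Dfn.mem (df_val t he) (hE i)
  | neg φ ih => intro α _ e E he hE; exact (ih he hE).not
  | and φ ψ ih1 ih2 => intro α _ e E he hE; exact (ih1 he hE).and (ih2 he hE)
  | allN φ ih =>
    intro α _ e E he hE
    refine Dfn.allN (P := fun (a : α) (n : ℕ) => φ.Sat S.U (ex n (e a)) (E a)) ?_
    refine ih (e := fun x : α × ℕ => ex x.2 (e x.1)) (E := fun x : α × ℕ => E x.1) ?_ ?_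
    · intro i
      rcases i with _ | i
      · exact Smp.id.snd.df
      · exact (he i).comp Smp.id.fst.df
    · intro i; exact (hE i).comp Smp.id.fst.df
  | allS φ ih =>
    intro α _ e E he hE
    refine Dfn.allR (P := fun (a : α) (X : Set ℕ) => φ.Sat S.U (e a) (ex X (E a))) ?_
    refine ih (e := fun x : α × Set ℕ => e x.1) (E := fun x : α × Set ℕ => ex x.2 (E x.1)) ?_ ?_
    · intro i; exact (he i).comp Smp.id.fst.df
    · intro i
      rcases i with _ | i
      · exact Smp.id.snd.df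
      · exact (hE i).comp Smp.id.fst.df

end

end Pool.Agent.Lib.Z2
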