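import Pool.Agent.Lib.Z2.Ops

/-!
# Countability of the definable predicates (MP_8dbd20_lc)
-/

namespace Pool.Agent.Lib.Z2

open Nat.Partrec (Code)

/-- Codes of formulas. -/
def Fa.code : Fa → ℕ
  | .mem => Nat.pair 0 0
  | .isC => Nat.pair 1 0
  | .neg φ => Nat.pair 2 φ.code
  | .and φ ψ => Nat.pair 3 (Nat.pair φ.code ψ.code)
  | .exN φ => Nat.pair 4 φ.code
  | .exR φ => Nat.pair 5 φ.code
  | .subN c φ => Nat.pair 6 (Nat.pair (Encodable.encode c) φ.code)
  | .subR c φ => Nat.pair 7 (Nat.pair (Encodable.encode c) φ.code)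

theorem Fa.code_inj : Function.Injective Fa.code := by
  intro φ
  induction φ with
  | mem => intro ψ h; cases ψ <;> simp [Fa.code, Nat.pair_eq_pair] at h ⊢
  | isC => intro ψ h; cases ψ <;> simp [Fa.code, Nat.pair_eq_pair] at h ⊢
  | neg φ ih => intro ψ h; cases ψ <;> simp [Fa.code, Nat.pair_eq_pair] at h ⊢; exact ih h
  | and φ ψ ih1 ih2 =>
    intro χ h; cases χ <;> simp [Fa.code, Nat.pair_eq_pair] at h ⊢
    exact ⟨ih1 h.1, ih2 h.2⟩
  | exN φ ih => intro ψ h; cases ψ <;> simp [Fa.code, Nat.pair_eq_pair] at h ⊢; exact ih h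
  | exR φ ih => intro ψ h; cases ψ <;> simp [Fa.code, Nat.pair_eq_pair] at h ⊢; exact ih h
  | subN c φ ih =>
    intro ψ h; cases ψ <;> simp [Fa.code, Nat.pair_eq_pair] at h ⊢
    exact ⟨h.1, ih h.2⟩
  | subR c φ ih =>
    intro ψ h; cases ψ <;> simp [Fa.code, Nat.pair_eq_pair] at h ⊢
    exact ⟨h.1, ih h.2⟩

instance : Countable Fa := ⟨Fa.code, Fa.code_inj⟩

/-- The definable predicates on a shape can be listed, if there are countably many parameters. -/
theorem dfn_countable {S : Str} (hS : S.Pm.Countable) (hne : S.Pm.Nonempty) (α : Type) [Shp α] :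
    ∃ D : ℕ → α → Prop, ∀ P : α → Prop, Dfn S P → ∃ n, ∀ a, vl S.U a → (P a ↔ D n a) := by
  haveI : Countable S.Pm := hS.to_subtype
  haveI : Nonempty S.Pm := hne.to_subtype
  haveI : Nonempty Fa := ⟨.mem⟩
  obtain ⟨g, hg⟩ := exists_surjective_nat (Fa × S.Pm)
  refine ⟨fun n a => Sat S (g n).1 (num a) (jn (g n).2.1 (re a)), ?_⟩
  rintro P ⟨φ, A, hA, h⟩
  obtain ⟨n, hn⟩ := hg (φ, ⟨A, hA⟩)
  refine ⟨n, fun a ha => ?_⟩
  show _ ↔ Sat S (g n).1 (num a) (jn (g n).2.1 (re a))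
  rw [h a ha, hn]

end Pool.Agent.Lib.Z2
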