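import Pool.Agent.Lib.Z2.Shape

/-!
# Definable predicates: closure properties (MP_8dbd20_lc)
-/

namespace Pool.Agent.Lib.Z2

open Nat.Partrec (Code)

/-- Definable predicates. -/
def Dfn (S : Str) {α : Type} [Shp α] (P : α → Prop) : Prop :=
  ∃ φ : Fa, ∃ A ∈ S.Pm, ∀ a, vl S.U a → (P a ↔ Sat S φ (num a) (jn A (re a)))

/-- Definable maps. -/
def DF (S : Str) {α β : Type} [Shp α] [Shp β] (f : α → β) : Prop :=
  (∀ a, vl S.U a → vl S.U (f a)) ∧ Dfn S (fun x : α × β => f x.1 = x.2)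

section
variable {S : Str} {α β γ δ : Type} [Shp α] [Shp β] [Shp γ] [Shp δ]

theorem dfn_raw [Good S] {P : α → Prop} :
    Dfn S P ↔ ∃ Q, Raw S Q ∧ ∀ a, vl S.U a → (P a ↔ Q (num a) (re a)) := by
  constructor
  · rintro ⟨φ, A, hA, h⟩
    exact ⟨fun n X => Sat S φ n (jn A X), ⟨φ, A, hA, fun n X _ => Iff.rfl⟩, h⟩
  · rintro ⟨Q, ⟨φ, A, hA, h⟩, hP⟩
    refine ⟨φ, A, hA, fun a ha => ?_⟩
    rw [hP a ha, h _ _ (Shp.re_mem S a ha)]

theorem Dfn.congr {P P' : α → Prop} (h : Dfn S P) (e : ∀ a, vl S.U a → (P' a ↔ P a)) : Dfn S P' := by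
  obtain ⟨φ, A, hA, hφ⟩ := h
  exact ⟨φ, A, hA, fun a ha => (e a ha).trans (hφ a ha)⟩

theorem Dfn.not {P : α → Prop} (h : Dfn S P) : Dfn S (fun a => ¬ P a) := by
  obtain ⟨φ, A, hA, hφ⟩ := h
  exact ⟨.neg φ, A, hA, fun a ha => not_congr (hφ a ha)⟩

theorem Dfn.and [Good S] {P Q : α → Prop} (h : Dfn S P) (h' : Dfn S Q) :
    Dfn S (fun a => P a ∧ Q a) := by
  rw [dfn_raw] at *
  obtain ⟨R, hR, hP⟩ := h
  obtain ⟨R', hR', hP'⟩ := h'
  exact ⟨_, hR.and hR', fun a ha => and_congr (hP a ha) (hP' a ha)⟩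

theorem Dfn.or [Good S] {P Q : α → Prop} (h : Dfn S P) (h' : Dfn S Q) :
    Dfn S (fun a => P a ∨ Q a) :=
  ((h.not.and h'.not).not).congr (fun a _ => by tauto)

theorem Dfn.imp [Good S] {P Q : α → Prop} (h : Dfn S P) (h' : Dfn S Q) :
    Dfn S (fun a => P a → Q a) :=
  ((h.and h'.not).not).congr (fun a _ => by tauto)

theorem Dfn.iff [Good S] {P Q : α → Prop} (h : Dfn S P) (h' : Dfn S Q) :
    Dfn S (fun a => P a ↔ Q a) :=
  ((h.imp h').and (h'.imp h)).congr (fun a _ => by tauto)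

/-- Simple maps: renamings of the data. -/
structure Smp (f : α → β) : Prop where
  vl : ∀ U a, vl U a → vl U (f a)
  num : ∃ p : ℕ → ℕ, Primrec p ∧ ∀ a, num (f a) = p (num a)
  re : ∃ q : ℕ → Option ℕ, Primrec q ∧ ∀ a, re (f a) = prf q (re a)

theorem prf_comp (q r : ℕ → Option ℕ) (X : Set ℕ) : prf q (prf r X) = prf (fun k => (q k).bind r) X := by
  ext k
  simp only [prf, Set.mem_ofPred_eq]
  constructor
  · rintro ⟨m, hm, j, hj, hX⟩
    exact ⟨j, by rw [hm]; exact hj, hX⟩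
  · rintro ⟨j, hj, hX⟩
    rcases hq : q k with _ | m
    · rw [hq] at hj; simp at hj
    · rw [hq] at hj; exact ⟨m, rfl, j, hj, hX⟩

theorem prf_some (X : Set ℕ) : prf some X = X := by
  ext k; simp [prf]

theorem Smp.id : Smp (fun a : α => a) :=
  ⟨fun _ _ h => h, ⟨_, Primrec.id, fun _ => rfl⟩, ⟨some, Primrec.option_some, fun a => (prf_some _).symm⟩⟩

theorem Smp.comp {g : β → γ} {f : α → β} (hg : Smp g) (hf : Smp f) : Smp (fun a => g (f a)) := by
  obtain ⟨v1, ⟨p1, hp1, e1⟩, ⟨q1, hq1, i1⟩⟩ := hg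
  obtain ⟨v2, ⟨p2, hp2, e2⟩, ⟨q2, hq2, i2⟩⟩ := hf
  refine ⟨fun U a h => v1 U _ (v2 U a h), ⟨_, hp1.comp hp2, fun a => by rw [e1, e2]⟩,
    ⟨fun k => (q1 k).bind q2, Primrec.option_bind hq1 (hq2.comp Primrec.snd).to₂, fun a => ?_⟩⟩
  rw [i1, i2, prf_comp]

theorem Smp.fst {f : γ → α × β} (hf : Smp f) : Smp (fun x => (f x).1) := by
  have : Smp (fun x : α × β => x.1) := by
    refine ⟨fun U a h => h.1, ⟨_, prim_left, fun a => ?_⟩, ⟨_, prim_lfF, fun a => ?_⟩⟩
    · show Shp.num a.1 = (Nat.pair (Shp.num a.1) (Shp.num a.2)).unpair.1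
      simp
    · show Shp.re a.1 = prf lfF (jn (Shp.re a.1) (Shp.re a.2))
      rw [prf_lfF, lf_jn]
  exact this.comp hf

theorem Smp.snd {f : γ → α × β} (hf : Smp f) : Smp (fun x => (f x).2) := by
  have : Smp (fun x : α × β => x.2) := by
    refine ⟨fun U a h => h.2, ⟨_, prim_right, fun a => ?_⟩, ⟨_, prim_rtF, fun a => ?_⟩⟩
    · show Shp.num a.2 = (Nat.pair (Shp.num a.1) (Shp.num a.2)).unpair.2
      simp
    · show Shp.re a.2 = prf rtF (jn (Shp.re a.1) (Shp.re a.2))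
      rw [prf_rtF, rt_jn]
  exact this.comp hf

theorem prf_par (q r : ℕ → Option ℕ) (X : Set ℕ) :
    prf (fun k => if k % 2 = 0 then q (k / 2) else r (k / 2)) X = jn (prf q X) (prf r X) := by
  apply jn_ext
  · intro k
    simp only [prf, Set.mem_ofPred_eq]
    simp
  · intro k
    have h2 : (2 * k + 1) / 2 = k := by omega
    have h3 : ¬ ((2 * k + 1) % 2 = 0) := by omega
    simp only [prf, Set.mem_ofPred_eq, if_neg h3, h2]

theorem Smp.pair {f : α → β} {g : α → γ} (hf : Smp f) (hg : Smp g) : Smp (fun a => (f a, g a)) := by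
  obtain ⟨v1, ⟨p1, hp1, e1⟩, ⟨q1, hq1, i1⟩⟩ := hf
  obtain ⟨v2, ⟨p2, hp2, e2⟩, ⟨q2, hq2, i2⟩⟩ := hg
  refine ⟨fun U a h => ⟨v1 U a h, v2 U a h⟩, ⟨_, Primrec₂.natPair.comp hp1 hp2, fun a => ?_⟩,
    ⟨_, prim_par hq1 hq2, fun a => ?_⟩⟩
  · show Nat.pair (Shp.num (f a)) (Shp.num (g a)) = _
    rw [e1, e2]
  · show jn (Shp.re (f a)) (Shp.re (g a)) = _
    rw [i1, i2, prf_par]

theorem Dfn.smp [Good S] {P : β → Prop} {f : α → β} (h : Dfn S P) (hf : Smp f) :
    Dfn S (fun a => P (f a)) := by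
  rw [dfn_raw] at *
  obtain ⟨R, hR, hP⟩ := h
  obtain ⟨v1, ⟨p1, hp1, e1⟩, ⟨q1, hq1, i1⟩⟩ := hf
  exact ⟨_, hR.sub hp1 hq1, fun a ha => by rw [hP _ (v1 _ a ha), e1, i1]⟩

/-- Existential quantifier over a shape. -/
theorem Dfn.ex [Good S] {P : α × β → Prop} (h : Dfn S P) :
    Dfn S (fun a => ∃ b, vl S.U b ∧ P (a, b)) := by
  rw [dfn_raw] at *
  obtain ⟨R, hR, hP⟩ := h
  -- the range formula as a raw relation
  have hrng : Raw S (fun n X => Sat S (Shp.rng β) n X) := by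
    obtain ⟨c, hc⟩ := exists_code_opt (f := fun k => some (2 * k + 1)) (Primrec.option_some.comp prim_dbl1)
    refine ⟨.subR c (Shp.rng β), ∅, Good.pe, fun n X hX => ?_⟩
    simp only [Sat]
    have : pre c (jn ∅ X) = X := by
      rw [hc]
      ext k
      simp [prf, mem_jn_odd]
    rw [this]
  have h1 : Raw S (fun n X => Sat S (Shp.rng β) n.unpair.1 (prf lfF X) ∧
      R (Nat.pair n.unpair.2 n.unpair.1) (prf (fun k => if k % 2 = 0 then rtF (k / 2) else lfF (k / 2)) X)) := by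
    refine (hrng.sub prim_left prim_lfF).and (hR.sub (f := fun n => Nat.pair n.unpair.2 n.unpair.1) ?_ (prim_par prim_rtF prim_lfF))
    exact Primrec₂.natPair.comp prim_right prim_left
  refine ⟨_, (h1.exR).exN, fun a ha => ?_⟩
  simp only [Nat.unpair_pair, prf_lfF, lf_jn, prf_par, prf_rtF, rt_jn]
  constructor
  · rintro ⟨b, hb, hPb⟩
    have hbU := Shp.re_mem S b hb
    refine ⟨num b, re b, hbU, (Shp.rng_spec S _ _ hbU).2 ⟨b, hb, rfl, rfl⟩, ?_⟩
    exact (hP (a, b) ⟨ha, hb⟩).1 hPb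
  · rintro ⟨m, Y, hY, hr, hR⟩
    obtain ⟨b, hb, rfl, rfl⟩ := (Shp.rng_spec S _ _ hY).1 hr
    exact ⟨b, hb, (hP (a, b) ⟨ha, hb⟩).2 hR⟩

/-- primitive recursive types: all objects are valid -/
class PShp (T : Type) [Primcodable T] [Shp T] : Prop where
  num_eq : ∀ t : T, num t = Encodable.encode t
  re_eq : ∀ t : T, re t = ∅
  vl_all : ∀ U (t : T), vl U t

instance (priority := low) {T : Type} [Primcodable T] : PShp T := ⟨fun _ => rfl, fun _ => rfl, fun _ _ => trivial⟩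

theorem jn_empty : jn ∅ ∅ = ∅ := by
  ext k; simp [jn]

instance {T T' : Type} [Primcodable T] [Primcodable T'] [Shp T] [Shp T'] [PShp T] [PShp T'] : PShp (T × T') := by
  refine ⟨fun t => ?_, fun t => ?_, fun U t => ?_⟩
  · show Nat.pair (num t.1) (num t.2) = _
    rw [PShp.num_eq, PShp.num_eq]; rfl
  · show jn (re t.1) (re t.2) = _
    rw [PShp.re_eq, PShp.re_eq, jn_empty]
  · exact ⟨PShp.vl_all U t.1, PShp.vl_all U t.2⟩

/-- Existential quantifier over a primitive recursive type. -/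
theorem Dfn.exN [Good S] {T : Type} [Primcodable T] [Shp T] [PShp T] {P : α → T → Prop}
    (h : Dfn S (fun x : α × T => P x.1 x.2)) : Dfn S (fun a => ∃ t, P a t) :=
  h.ex.congr (fun a _ => ⟨fun ⟨t, ht⟩ => ⟨t, PShp.vl_all _ t, ht⟩, fun ⟨t, _, ht⟩ => ⟨t, ht⟩⟩)

theorem Dfn.allN [Good S] {T : Type} [Primcodable T] [Shp T] [PShp T] {P : α → T → Prop}
    (h : Dfn S (fun x : α × T => P x.1 x.2)) : Dfn S (fun a => ∀ t, P a t) :=
  ((Dfn.exN (P := fun a t => ¬ P a t) h.not).not).congr (fun a _ => by push Not; rfl)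

/-- Existential quantifier over the reals of `S.U`. -/
theorem Dfn.exR [Good S] {P : α → Set ℕ → Prop}
    (h : Dfn S (fun x : α × Set ℕ => P x.1 x.2)) : Dfn S (fun a => ∃ X ∈ S.U, P a X) :=
  h.ex.congr (fun a _ => Iff.rfl)

theorem Dfn.allR [Good S] {P : α → Set ℕ → Prop}
    (h : Dfn S (fun x : α × Set ℕ => P x.1 x.2)) : Dfn S (fun a => ∀ X ∈ S.U, P a X) :=
  ((Dfn.exR (P := fun a t => ¬ P a t) h.not).not).congr (fun a _ => by push Not; rfl)

/-- Existential quantifier over valid objects. -/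
theorem Dfn.exV [Good S] {P : α → β → Prop}
    (h : Dfn S (fun x : α × β => P x.1 x.2)) : Dfn S (fun a => ∃ b, vl S.U b ∧ P a b) :=
  h.ex.congr (fun a _ => Iff.rfl)

theorem Dfn.allV [Good S] {P : α → β → Prop}
    (h : Dfn S (fun x : α × β => P x.1 x.2)) : Dfn S (fun a => ∀ b, vl S.U b → P a b) :=
  ((Dfn.exV (P := fun a t => ¬ P a t) h.not).not).congr (fun a _ => by push Not; rfl)

/-! ### atomic predicates -/

theorem dfn_mem [Good S] : Dfn S (fun x : ℕ × Set ℕ => x.1 ∈ x.2) := by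
  rw [dfn_raw]
  refine ⟨_, Raw.memR.sub prim_left prim_rtF, fun x _ => ?_⟩
  rw [prf_rtF]
  show _ ↔ (Nat.pair (Encodable.encode x.1) 0).unpair.1 ∈ rt (jn ∅ x.2)
  simp

theorem dfn_isC [Good S] : Dfn S (fun x : Set ℕ => x ∈ S.C) := by
  rw [dfn_raw]
  exact ⟨_, Raw.isC, fun x _ => Iff.rfl⟩

theorem dfn_param [Good S] {A : Set ℕ} (hA : A ∈ S.Pm) : Dfn S (fun x : ℕ => x ∈ A) := by
  rw [dfn_raw]
  exact ⟨_, Raw.memA hA, fun x _ => Iff.rfl⟩

theorem dfn_true [Good S] : Dfn S (fun _ : α => True) := by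
  rw [dfn_raw]
  exact ⟨fun n X => ¬ (n ∈ X ∧ ¬ n ∈ X), (Raw.memR.and Raw.memR.not).not, fun x _ => by tauto⟩

/-- a primitive recursive predicate of the number is raw. -/
theorem Raw.tst [Good S] {p : ℕ → Prop} [DecidablePred p] (hp : PrimrecPred p) : Raw S (fun n _ => p n) :=
  ⟨Fa.tst p hp, ∅, Good.pe, fun n X _ => (sat_tst S p hp n _).symm⟩

/-- equality on a shape -/
theorem dfn_eq [Good S] : Dfn S (fun x : β × β => x.1 = x.2) := by
  rw [dfn_raw]
  have h1 : Raw S (fun n _ => n.unpair.1 = n.unpair.2) := Raw.tst (Primrec.eq.comp prim_left prim_right)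
  have h2 : Raw S (fun n X => n.unpair.1 ∈ lf X) :=
    (Raw.memR.sub prim_left prim_lfF).congr (fun n X _ => by rw [prf_lfF])
  have h3 : Raw S (fun n X => n.unpair.1 ∈ rt X) :=
    (Raw.memR.sub prim_left prim_rtF).congr (fun n X _ => by rw [prf_rtF])
  have h4 : Raw S (fun _ X => lf X = rt X) := by
    have h5 := (((h2.and h3.not).exN).not).and (((h3.and h2.not).exN).not)
    refine h5.congr (fun n X _ => ?_)
    simp only [Nat.unpair_pair]
    constructor
    · intro h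
      rw [h]
      exact ⟨fun ⟨m, h, h'⟩ => h' h, fun ⟨m, h, h'⟩ => h' h⟩
    · rintro ⟨h, h'⟩
      ext k
      constructor
      · intro hk; by_contra hc; exact h ⟨k, hk, hc⟩
      · intro hk; by_contra hc; exact h' ⟨k, hk, hc⟩
  refine ⟨_, h1.and h4, fun x _ => ?_⟩
  show _ ↔ (Nat.pair (num x.1) (num x.2)).unpair.1 = (Nat.pair (num x.1) (num x.2)).unpair.2 ∧
    lf (jn (re x.1) (re x.2)) = rt (jn (re x.1) (re x.2))
  simp only [Nat.unpair_pair, lf_jn, rt_jn]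
  constructor
  · rintro h; rw [h]; exact ⟨rfl, rfl⟩
  · rintro ⟨h, h'⟩; exact Shp.inj _ _ h h'

/-! ### definable maps -/

theorem Smp.df [Good S] {f : α → β} (hf : Smp f) : DF S f :=
  ⟨fun a h => hf.vl _ a h, dfn_eq.smp ((hf.comp Smp.id.fst).pair Smp.id.snd)⟩

theorem Dfn.comp [Good S] {P : β → Prop} {f : α → β} (h : Dfn S P) (hf : DF S f) :
    Dfn S (fun a => P (f a)) := by
  have h1 : Dfn S (fun x : α × β => f x.1 = x.2 ∧ P x.2) := hf.2.and (h.smp Smp.id.snd)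
  refine h1.ex.congr (fun a ha => ?_)
  constructor
  · intro hP; exact ⟨f a, hf.1 a ha, rfl, hP⟩
  · rintro ⟨b, _, hb, hP⟩
    simp only at hb hP
    rw [hb]; exact hP

theorem DF.comp [Good S] {g : β → γ} {f : α → β} (hg : DF S g) (hf : DF S f) : DF S (fun a => g (f a)) := by
  refine ⟨fun a h => hg.1 _ (hf.1 a h), ?_⟩
  have h1 : Dfn S (fun x : (α × γ) × β => f x.1.1 = x.2 ∧ g x.2 = x.1.2) := by
    refine Dfn.and ?_ ?_
    · exact hf.2.smp (f := fun x : (α × γ) × β => (x.1.1, x.2)) ((Smp.id.fst.fst).pair Smp.id.snd)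
    · exact hg.2.smp (f := fun x : (α × γ) × β => (x.2, x.1.2)) (Smp.id.snd.pair (Smp.id.fst.snd))
  refine h1.ex.congr (fun x hx => ?_)
  constructor
  · intro h; exact ⟨f x.1, hf.1 _ hx.1, rfl, h⟩
  · rintro ⟨b, _, hb, hP⟩
    simp only at hb hP
    show g (f x.1) = x.2
    rw [hb]; exact hP

theorem DF.pair [Good S] {f : α → β} {g : α → γ} (hf : DF S f) (hg : DF S g) :
    DF S (fun a => (f a, g a)) := by
  refine ⟨fun a h => ⟨hf.1 a h, hg.1 a h⟩, ?_⟩
  have h1 : Dfn S (fun x : α × (β × γ) => f x.1 = x.2.1 ∧ g x.1 = x.2.2) :=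
    (hf.2.smp (f := fun x : α × (β × γ) => (x.1, x.2.1)) (Smp.id.fst.pair Smp.id.snd.fst)).and
      (hg.2.smp (f := fun x : α × (β × γ) => (x.1, x.2.2)) (Smp.id.fst.pair Smp.id.snd.snd))
  refine h1.congr (fun x _ => ?_)
  rw [Prod.ext_iff]

theorem DF.id [Good S] : DF S (fun a : α => a) := Smp.id.df
theorem DF.fst [Good S] {f : γ → α × β} (hf : DF S f) : DF S (fun x => (f x).1) :=
  DF.comp (g := fun x : α × β => x.1) (Smp.id.fst).df hf
theorem DF.snd [Good S] {f : γ → α × β} (hf : DF S f) : DF S (fun x => (f x).2) :=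
  DF.comp (g := fun x : α × β => x.2) (Smp.id.snd).df hf

theorem Dfn.comp₂ [Good S] {R : β → γ → Prop} {f : α → β} {g : α → γ}
    (h : Dfn S (fun x : β × γ => R x.1 x.2)) (hf : DF S f) (hg : DF S g) : Dfn S (fun a => R (f a) (g a)) :=
  h.comp (hf.pair hg)

theorem Dfn.comp₃ [Good S] {R : β → γ → δ → Prop} {f : α → β} {g : α → γ} {k : α → δ}
    (h : Dfn S (fun x : β × γ × δ => R x.1 x.2.1 x.2.2)) (hf : DF S f) (hg : DF S g) (hk : DF S k) :
    Dfn S (fun a => R (f a) (g a) (k a)) :=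
  h.comp (hf.pair (hg.pair hk))

theorem DF.comp₂ [Good S] {F : β → γ → δ} {f : α → β} {g : α → γ}
    (h : DF S (fun x : β × γ => F x.1 x.2)) (hf : DF S f) (hg : DF S g) : DF S (fun a => F (f a) (g a)) :=
  h.comp (hf.pair hg)

theorem Dfn.mem [Good S] {f : α → ℕ} {g : α → Set ℕ} (hf : DF S f) (hg : DF S g) :
    Dfn S (fun a => f a ∈ g a) := dfn_mem.comp (hf.pair hg)
theorem Dfn.isC [Good S] {g : α → Set ℕ} (hg : DF S g) : Dfn S (fun a => g a ∈ S.C) := dfn_isC.comp hg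
theorem Dfn.eq [Good S] {f g : α → β} (hf : DF S f) (hg : DF S g) : Dfn S (fun a => f a = g a) :=
  dfn_eq.comp (hf.pair hg)

/-- numbers (and other objects with an empty real) as constants -/
theorem DF.constN [Good S] {T : Type} [Primcodable T] [Shp T] [PShp T] (t : T) : DF S (fun _ : α => t) := by
  refine ⟨fun _ _ => PShp.vl_all _ t, ?_⟩
  rw [dfn_raw]
  refine ⟨_, Raw.tst (p := fun n => n.unpair.2 = Encodable.encode t)
    (Primrec.eq.comp prim_right (Primrec.const _)), fun x _ => ?_⟩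
  show _ ↔ (Nat.pair (num x.1) (num x.2)).unpair.2 = Encodable.encode t
  rw [PShp.num_eq x.2]
  simp only [Nat.unpair_pair]
  constructor
  · rintro h; rw [h]
  · intro h; exact (Encodable.encode_injective h).symm

/-- real-valued maps: a definable membership relation suffices -/
theorem DF.set [Good S] {f : α → Set ℕ} (hv : ∀ a, vl S.U a → f a ∈ S.U)
    (h : Dfn S (fun x : α × ℕ => x.2 ∈ f x.1)) : DF S f := by
  refine ⟨hv, ?_⟩
  have h1 : Dfn S (fun x : (α × Set ℕ) × ℕ => x.2 ∈ f x.1.1) :=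
    h.smp (f := fun x : (α × Set ℕ) × ℕ => (x.1.1, x.2)) (Smp.id.fst.fst.pair Smp.id.snd)
  have h2 : Dfn S (fun x : (α × Set ℕ) × ℕ => x.2 ∈ x.1.2) := Dfn.mem Smp.id.snd.df Smp.id.fst.snd.df
  have h3 : Dfn S (fun y : α × Set ℕ => ∀ k : ℕ, (k ∈ f y.1 ↔ k ∈ y.2)) :=
    Dfn.allN (P := fun (y : α × Set ℕ) (k : ℕ) => (k ∈ f y.1 ↔ k ∈ y.2)) (h1.iff h2)
  refine h3.congr (fun x _ => ?_)
  exact Set.ext_iff

theorem DF.constR [Good S] {A : Set ℕ} (hA : A ∈ S.Pm) : DF S (fun _ : α => A) := by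
  refine DF.set (fun _ _ => Good.pu _ hA) ?_
  exact (dfn_param hA).smp (f := fun x : α × ℕ => x.2) Smp.id.snd

/-- primitive recursive maps -/
theorem DF.prim [Good S] {T T' : Type} [Primcodable T] [Shp T] [PShp T] [Primcodable T'] [Shp T'] [PShp T']
    {F : T → T'} (hF : Primrec F) {f : α → T} (hf : DF S f) : DF S (fun a => F (f a)) := by
  refine DF.comp (g := F) ?_ hf
  refine ⟨fun _ _ => PShp.vl_all _ _, ?_⟩
  rw [dfn_raw]
  have hp : PrimrecPred (fun n : ℕ => ((Encodable.decode (α := T) n.unpair.1).map F).map (Encodable.encode)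
      = some n.unpair.2) := by
    refine Primrec.eq.comp ?_ (Primrec.option_some.comp prim_right)
    refine Primrec.option_map (Primrec.option_map (Primrec.decode.comp prim_left) (hF.comp Primrec.snd).to₂) ?_
    exact (Primrec.encode.comp Primrec.snd).to₂
  refine ⟨_, Raw.tst hp, fun x _ => ?_⟩
  show _ ↔ ((Encodable.decode (α := T) (Nat.pair (num x.1) (num x.2)).unpair.1).map F).map (Encodable.encode)
      = some (Nat.pair (num x.1) (num x.2)).unpair.2
  rw [PShp.num_eq x.1, PShp.num_eq x.2]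
  simp only [Nat.unpair_pair, Encodable.encodek, Option.map_some, Option.some.injEq]
  constructor
  · rintro h; rw [h]
  · intro h; exact Encodable.encode_injective h

theorem DF.prim₂ [Good S] {T T' T'' : Type} [Primcodable T] [Shp T] [PShp T] [Primcodable T'] [Shp T'] [PShp T']
    [Primcodable T''] [Shp T''] [PShp T'']
    {F : T → T' → T''} (hF : Primrec₂ F) {f : α → T} {g : α → T'} (hf : DF S f) (hg : DF S g) :
    DF S (fun a => F (f a) (g a)) :=
  DF.prim (F := fun x : T × T' => F x.1 x.2) hF (hf.pair hg)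

theorem Dfn.prim [Good S] {T : Type} [Primcodable T] [Shp T] [PShp T]
    {p : T → Prop} [DecidablePred p] (hp : PrimrecPred p) {f : α → T} (hf : DF S f) : Dfn S (fun a => p (f a)) := by
  have h := Dfn.eq (DF.prim (F := fun t => decide (p t)) hp.decide hf) (DF.constN (S := S) (α := α) true)
  exact h.congr (fun a _ => by simp)

theorem Dfn.prim₂ [Good S] {T T' : Type} [Primcodable T] [Shp T] [PShp T] [Primcodable T'] [Shp T'] [PShp T']
    {p : T → T' → Prop} [∀ a b, Decidable (p a b)] (hp : PrimrecRel p) {f : α → T} {g : α → T'}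
    (hf : DF S f) (hg : DF S g) : Dfn S (fun a => p (f a) (g a)) :=
  Dfn.prim (p := fun x : T × T' => p x.1 x.2) hp (hf.pair hg)

end

end Pool.Agent.Lib.Z2
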