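import Pool.Agent.Lib.Z2.Dfn

/-!
# Definable operations on reals and on lists of reals (MP_8dbd20_lc)
-/

namespace Pool.Agent.Lib.Z2

open Nat.Partrec (Code)

section
variable {S : Str} {α β γ δ : Type} [Shp α] [Shp β] [Shp γ] [Shp δ]

theorem DF.natPair [Good S] {f g : α → ℕ} (hf : DF S f) (hg : DF S g) : DF S (fun a => Nat.pair (f a) (g a)) :=
  DF.prim₂ Primrec₂.natPair hf hg
theorem DF.unp1 [Good S] {f : α → ℕ} (hf : DF S f) : DF S (fun a => (f a).unpair.1) := DF.prim prim_left hf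
theorem DF.unp2 [Good S] {f : α → ℕ} (hf : DF S f) : DF S (fun a => (f a).unpair.2) := DF.prim prim_right hf
theorem DF.add [Good S] {f g : α → ℕ} (hf : DF S f) (hg : DF S g) : DF S (fun a => f a + g a) :=
  DF.prim₂ Primrec.nat_add hf hg
theorem DF.mul [Good S] {f g : α → ℕ} (hf : DF S f) (hg : DF S g) : DF S (fun a => f a * g a) :=
  DF.prim₂ Primrec.nat_mul hf hg
theorem DF.sub [Good S] {f g : α → ℕ} (hf : DF S f) (hg : DF S g) : DF S (fun a => f a - g a) :=
  DF.prim₂ Primrec.nat_sub hf hg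
theorem DF.div [Good S] {f g : α → ℕ} (hf : DF S f) (hg : DF S g) : DF S (fun a => f a / g a) :=
  DF.prim₂ Primrec.nat_div hf hg
theorem DF.mod [Good S] {f g : α → ℕ} (hf : DF S f) (hg : DF S g) : DF S (fun a => f a % g a) :=
  DF.prim₂ Primrec.nat_mod hf hg
theorem Dfn.lt [Good S] {f g : α → ℕ} (hf : DF S f) (hg : DF S g) : Dfn S (fun a => f a < g a) :=
  Dfn.prim₂ (p := fun a b : ℕ => a < b) Primrec.nat_lt hf hg
theorem Dfn.le [Good S] {f g : α → ℕ} (hf : DF S f) (hg : DF S g) : Dfn S (fun a => f a ≤ g a) :=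
  Dfn.prim₂ (p := fun a b : ℕ => a ≤ b) Primrec.nat_le hf hg

/-- a constant predicate -/
theorem dfn_const [Good S] (p : Prop) : Dfn S (fun _ : α => p) := by
  by_cases h : p
  · exact dfn_true.congr (fun _ _ => by simp [h])
  · exact dfn_true.not.congr (fun _ _ => by simp [h])

/-- membership in a definable real-valued map, with two variables -/
theorem Dfn.mem_prf [Good S] {q : ℕ → Option ℕ} (hq : Primrec q) {f : α → ℕ} {g : α → Set ℕ}
    (hf : DF S f) (hg : DF S g) : Dfn S (fun a => f a ∈ prf q (g a)) := by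
  have h : Dfn S (fun a => ∃ m : ℕ, q (f a) = some m ∧ m ∈ g a) := by
    refine Dfn.exN (P := fun (a : α) (m : ℕ) => q (f a) = some m ∧ m ∈ g a) ?_
    refine Dfn.and ?_ (Dfn.mem Smp.id.snd.df (hg.comp Smp.id.fst.df))
    refine Dfn.eq (f := fun x : α × ℕ => q (f x.1)) (g := fun x => some x.2) ?_ ?_
    · exact DF.prim hq (hf.comp Smp.id.fst.df)
    · exact DF.prim Primrec.option_some Smp.id.snd.df
  exact h

theorem DF.prf [Good S] {q : ℕ → Option ℕ} (hq : Primrec q) {g : α → Set ℕ} (hg : DF S g) :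
    DF S (fun a => prf q (g a)) := by
  refine DF.set (fun a ha => Good.prf_mem S hq (hg.1 a ha)) ?_
  exact Dfn.mem_prf hq Smp.id.snd.df (hg.comp Smp.id.fst.df)

theorem DF.lf [Good S] {g : α → Set ℕ} (hg : DF S g) : DF S (fun a => lf (g a)) := by
  have := DF.prf prim_lfF hg
  simpa only [prf_lfF] using this
theorem DF.rt [Good S] {g : α → Set ℕ} (hg : DF S g) : DF S (fun a => rt (g a)) := by
  have := DF.prf prim_rtF hg
  simpa only [prf_rtF] using this

theorem DF.jn [Good S] {f g : α → Set ℕ} (hf : DF S f) (hg : DF S g) : DF S (fun a => jn (f a) (g a)) := by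
  refine DF.comp₂ (F := fun X Y : Set ℕ => Z2.jn X Y) ?_ hf hg
  refine DF.set (fun a ha => Good.uj _ ha.1 _ ha.2) ?_
  show Dfn S (fun x : (Set ℕ × Set ℕ) × ℕ => if x.2 % 2 = 0 then x.2 / 2 ∈ x.1.1 else x.2 / 2 ∈ x.1.2)
  have h0 : Dfn S (fun x : (Set ℕ × Set ℕ) × ℕ => x.2 % 2 = 0) :=
    Dfn.prim (p := fun n => n % 2 = 0) (Primrec.eq.comp prim_mod (Primrec.const 0)) Smp.id.snd.df
  have h2 : DF S (fun x : (Set ℕ × Set ℕ) × ℕ => x.2 / 2) := DF.prim prim_half Smp.id.snd.df
  refine ((h0.and (Dfn.mem h2 Smp.id.fst.fst.df)).or (h0.not.and (Dfn.mem h2 Smp.id.fst.snd.df))).congr ?_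
  intro a _
  split_ifs with h <;> simp [h]

theorem mem_sec {X : Set ℕ} {n m : ℕ} : m ∈ sec X n ↔ Nat.pair n m ∈ X := Iff.rfl

theorem DF.sec [Good S] {f : α → Set ℕ} {g : α → ℕ} (hf : DF S f) (hg : DF S g) :
    DF S (fun a => sec (f a) (g a)) := by
  refine DF.comp₂ (F := fun (X : Set ℕ) (n : ℕ) => Z2.sec X n) ?_ hf hg
  refine DF.set (fun a ha => Good.sec_mem S ha.1 _) ?_
  show Dfn S (fun x : (Set ℕ × ℕ) × ℕ => Nat.pair x.1.2 x.2 ∈ x.1.1)
  exact Dfn.mem (DF.natPair Smp.id.fst.snd.df Smp.id.snd.df) Smp.id.fst.fst.df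

theorem Good.exN_mem (S : Str) [Good S] {X : Set ℕ} (hX : X ∈ S.U) : {n | ∃ m, Nat.pair m n ∈ X} ∈ S.U :=
  Good.ux X hX
theorem Good.cmp_mem (S : Str) [Good S] {X : Set ℕ} (hX : X ∈ S.U) : Xᶜ ∈ S.U := Good.uc X hX

/-! ### Lists of reals -/

/-- the `i`-th real of a list (empty beyond the end) -/
def gt (L : List (Set ℕ)) (i : ℕ) : Set ℕ := sec (lre L) i

theorem gt_of_lt {L : List (Set ℕ)} {i : ℕ} (h : i < L.length) : gt L i = L[i] := sec_lre L i h
theorem gt_of_ge {L : List (Set ℕ)} {i : ℕ} (h : L.length ≤ i) : gt L i = ∅ := by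
  ext m
  simp [gt, sec, lre, List.getElem?_eq_none h]

theorem mem_list_iff (L : List (Set ℕ)) (X : Set ℕ) : X ∈ L ↔ ∃ i, i < L.length ∧ gt L i = X := by
  constructor
  · intro h
    obtain ⟨i, hi, rfl⟩ := List.mem_iff_getElem.1 h
    exact ⟨i, hi, gt_of_lt hi⟩
  · rintro ⟨i, hi, rfl⟩
    rw [gt_of_lt hi]; exact List.getElem_mem hi

theorem DF.lre [Good S] {f : α → List (Set ℕ)} (hf : DF S f) : DF S (fun a => lre (f a)) := by
  refine DF.comp (g := fun L : List (Set ℕ) => Z2.lre L) ?_ hf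
  refine DF.set (fun L hL => lre_mem S L hL) ?_
  rw [dfn_raw]
  refine ⟨_, Raw.memR.sub prim_right prim_lfF, fun x _ => ?_⟩
  rw [prf_lfF]
  show _ ↔ (Nat.pair x.1.length (Encodable.encode x.2)).unpair.2 ∈ Z2.lf (Z2.jn (Z2.lre x.1) ∅)
  simp

theorem DF.len [Good S] {f : α → List (Set ℕ)} (hf : DF S f) : DF S (fun a => (f a).length) := by
  refine DF.comp (g := fun L : List (Set ℕ) => L.length) ?_ hf
  refine ⟨fun _ _ => trivial, ?_⟩
  rw [dfn_raw]
  refine ⟨_, Raw.tst (p := fun n => n.unpair.1 = n.unpair.2) (Primrec.eq.comp prim_left prim_right), fun x _ => ?_⟩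
  show _ ↔ (Nat.pair (x.1.length) (x.2)).unpair.1 = (Nat.pair (x.1.length) (x.2)).unpair.2
  simp

theorem DF.gt [Good S] {f : α → List (Set ℕ)} {g : α → ℕ} (hf : DF S f) (hg : DF S g) :
    DF S (fun a => gt (f a) (g a)) := DF.sec (DF.lre hf) hg

/-- membership in a list of reals -/
theorem Dfn.lmem [Good S] {f : α → Set ℕ} {g : α → List (Set ℕ)} (hf : DF S f) (hg : DF S g) :
    Dfn S (fun a => f a ∈ g a) := by
  have h : Dfn S (fun a => ∃ i : ℕ, i < (g a).length ∧ Z2.gt (g a) i = f a) := by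
    refine Dfn.exN (P := fun (a : α) (i : ℕ) => i < (g a).length ∧ Z2.gt (g a) i = f a) ?_
    refine (Dfn.lt Smp.id.snd.df (DF.len (hg.comp Smp.id.fst.df))).and ?_
    exact Dfn.eq (DF.gt (hg.comp Smp.id.fst.df) Smp.id.snd.df) (hf.comp Smp.id.fst.df)
  exact h.congr (fun a _ => mem_list_iff _ _)

/-- bounded quantifiers over a list of reals -/
theorem Dfn.exL [Good S] {P : α → Set ℕ → Prop} {g : α → List (Set ℕ)} (hg : DF S g)
    (h : Dfn S (fun x : α × Set ℕ => P x.1 x.2)) : Dfn S (fun a => ∃ X ∈ g a, P a X) := by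
  have h1 : Dfn S (fun a => ∃ X ∈ S.U, X ∈ g a ∧ P a X) :=
    Dfn.exR (P := fun a X => X ∈ g a ∧ P a X) ((Dfn.lmem Smp.id.snd.df (hg.comp Smp.id.fst.df)).and h)
  refine h1.congr (fun a ha => ?_)
  constructor
  · rintro ⟨X, hX, hP⟩; exact ⟨X, hg.1 a ha X hX, hX, hP⟩
  · rintro ⟨X, _, hX, hP⟩; exact ⟨X, hX, hP⟩

theorem Dfn.allL [Good S] {P : α → Set ℕ → Prop} {g : α → List (Set ℕ)} (hg : DF S g)
    (h : Dfn S (fun x : α × Set ℕ => P x.1 x.2)) : Dfn S (fun a => ∀ X ∈ g a, P a X) :=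
  ((Dfn.exL (P := fun a X => ¬ P a X) hg h.not).not).congr (fun a _ => by push Not; rfl)

theorem list_ext_gt {L L' : List (Set ℕ)} (h : L.length = L'.length) (h' : ∀ i < L.length, gt L i = gt L' i) :
    L = L' := by
  refine List.ext_getElem h (fun i h1 h2 => ?_)
  rw [← gt_of_lt h1, ← gt_of_lt h2, h' i h1]

/-- list-valued maps: definable length and entries -/
theorem DF.list [Good S] {f : α → List (Set ℕ)} (hv : ∀ a, vl S.U a → ∀ X ∈ f a, X ∈ S.U)
    (hl : DF S (fun a => (f a).length)) (hgt : DF S (fun x : α × ℕ => Z2.gt (f x.1) x.2)) : DF S f := by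
  refine ⟨hv, ?_⟩
  have h : Dfn S (fun x : α × List (Set ℕ) => (f x.1).length = x.2.length ∧ ∀ i : ℕ, Z2.gt (f x.1) i = Z2.gt x.2 i) := by
    refine (Dfn.eq (hl.comp Smp.id.fst.df) (DF.len Smp.id.snd.df)).and ?_
    refine Dfn.allN (P := fun (x : α × List (Set ℕ)) (i : ℕ) => Z2.gt (f x.1) i = Z2.gt x.2 i) ?_
    refine Dfn.eq ?_ (DF.gt Smp.id.fst.snd.df Smp.id.snd.df)
    exact hgt.comp (f := fun x : (α × List (Set ℕ)) × ℕ => (x.1.1, x.2)) (Smp.id.fst.fst.pair Smp.id.snd).df
  refine h.congr (fun x _ => ?_)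
  constructor
  · intro h; rw [h]; exact ⟨rfl, fun _ => rfl⟩
  · rintro ⟨h1, h2⟩; exact list_ext_gt h1 (fun i _ => h2 i)

theorem DF.congr {f f' : α → β} (h : DF S f) (e : ∀ a, vl S.U a → f' a = f a) : DF S f' := by
  refine ⟨fun a ha => by rw [e a ha]; exact h.1 a ha, h.2.congr (fun x hx => ?_)⟩
  rw [e x.1 hx.1]

theorem DF.ite [Good S] {p : α → Prop} [DecidablePred p] {f g : α → β} (hp : Dfn S p) (hf : DF S f) (hg : DF S g) :
    DF S (fun a => if p a then f a else g a) := by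
  refine ⟨fun a ha => ?_, ?_⟩
  · show vl S.U (if p a then f a else g a)
    split_ifs
    · exact hf.1 a ha
    · exact hg.1 a ha
  · have hp' : Dfn S (fun x : α × β => p x.1) := hp.smp Smp.id.fst
    refine ((hp'.and hf.2).or (hp'.not.and hg.2)).congr (fun x _ => ?_)
    by_cases h : p x.1 <;> simp [h]

theorem DF.nil [Good S] : DF S (fun _ : α => ([] : List (Set ℕ))) := by
  refine DF.list (fun _ _ _ h => absurd h (by simp)) (DF.constN (0 : ℕ)) ?_
  refine (DF.constR Good.pe).congr (fun a _ => gt_of_ge (by simp))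

theorem gt_cons (X : Set ℕ) (L : List (Set ℕ)) (i : ℕ) :
    gt (X :: L) i = if i = 0 then X else gt L (i - 1) := by
  rcases i with _ | i
  · rw [gt_of_lt (by simp)]; simp
  · by_cases h : i < L.length
    · rw [gt_of_lt (by simpa using h)]
      simp only [List.getElem_cons_succ, Nat.add_eq_zero_iff, one_ne_zero, and_false, if_false, Nat.add_sub_cancel]
      rw [gt_of_lt h]
    · rw [gt_of_ge (by simp; omega)]
      simp only [Nat.add_eq_zero_iff, one_ne_zero, and_false, if_false, Nat.add_sub_cancel]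
      rw [gt_of_ge (by omega)]

theorem gt_append (L L' : List (Set ℕ)) (i : ℕ) :
    gt (L ++ L') i = if i < L.length then gt L i else gt L' (i - L.length) := by
  split_ifs with h
  · rw [gt_of_lt (by simp; omega), gt_of_lt h, List.getElem_append_left h]
  · by_cases h2 : i < (L ++ L').length
    · rw [gt_of_lt h2, gt_of_lt (by simp at h2; omega), List.getElem_append_right (by omega)]
    · rw [gt_of_ge (by omega), gt_of_ge (by simp at h2; omega)]

theorem DF.cons [Good S] {f : α → Set ℕ} {g : α → List (Set ℕ)} (hf : DF S f) (hg : DF S g) :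
    DF S (fun a => f a :: g a) := by
  refine DF.list ?_ ?_ ?_
  · intro a ha X hX
    rcases List.mem_cons.1 hX with rfl | h
    · exact hf.1 a ha
    · exact hg.1 a ha X h
  · exact (DF.add (DF.len hg) (DF.constN (1 : ℕ)))
  · simp only [gt_cons]
    refine DF.ite (p := fun x : α × ℕ => x.2 = 0) (Dfn.eq Smp.id.snd.df (DF.constN 0)) (hf.comp Smp.id.fst.df) ?_
    exact DF.gt (hg.comp Smp.id.fst.df) (DF.sub Smp.id.snd.df (DF.constN 1))

theorem DF.append [Good S] {f g : α → List (Set ℕ)} (hf : DF S f) (hg : DF S g) :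
    DF S (fun a => f a ++ g a) := by
  refine DF.list ?_ ?_ ?_
  · intro a ha X hX
    rcases List.mem_append.1 hX with h | h
    · exact hf.1 a ha X h
    · exact hg.1 a ha X h
  · simp only [List.length_append]
    exact (DF.add (DF.len hf) (DF.len hg))
  · simp only [gt_append]
    refine DF.ite (p := fun x : α × ℕ => x.2 < (f x.1).length) (Dfn.lt Smp.id.snd.df (DF.len (hf.comp Smp.id.fst.df)))
      (DF.gt (hf.comp Smp.id.fst.df) Smp.id.snd.df) ?_
    exact DF.gt (hg.comp Smp.id.fst.df) (DF.sub Smp.id.snd.df (DF.len (hf.comp Smp.id.fst.df)))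

/-! ### Lists of primitive recursive objects -/

/-- membership in a list of elements of a primitive recursive type -/
theorem Dfn.pmem [Good S] {T : Type} [Primcodable T] [Shp T] [PShp T] {f : α → T} {g : α → List T}
    (hf : DF S f) (hg : DF S g) : Dfn S (fun a => f a ∈ g a) := by
  have h : Dfn S (fun a => ∃ i : ℕ, (g a)[i]? = some (f a)) := by
    refine Dfn.exN (P := fun (a : α) (i : ℕ) => (g a)[i]? = some (f a)) ?_
    refine Dfn.eq (f := fun x : α × ℕ => (g x.1)[x.2]?) (g := fun x : α × ℕ => some (f x.1)) ?_ ?_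
    · exact DF.prim₂ (F := fun (l : List T) (i : ℕ) => l[i]?) Primrec.list_getElem? (hg.comp Smp.id.fst.df) Smp.id.snd.df
    · exact DF.prim Primrec.option_some (hf.comp Smp.id.fst.df)
  exact h.congr (fun a _ => List.mem_iff_getElem?)

theorem Dfn.exP [Good S] {T : Type} [Primcodable T] [Shp T] [PShp T] {P : α → T → Prop} {g : α → List T}
    (hg : DF S g) (h : Dfn S (fun x : α × T => P x.1 x.2)) : Dfn S (fun a => ∃ t ∈ g a, P a t) :=
  Dfn.exN (P := fun a t => t ∈ g a ∧ P a t) ((Dfn.pmem Smp.id.snd.df (hg.comp Smp.id.fst.df)).and h)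

theorem Dfn.allP [Good S] {T : Type} [Primcodable T] [Shp T] [PShp T] {P : α → T → Prop} {g : α → List T}
    (hg : DF S g) (h : Dfn S (fun x : α × T => P x.1 x.2)) : Dfn S (fun a => ∀ t ∈ g a, P a t) :=
  ((Dfn.exP (P := fun a X => ¬ P a X) hg h.not).not).congr (fun a _ => by push Not; rfl)

/-- the code number of an object -/
theorem DF.num [Good S] {f : α → β} (hf : DF S f) : DF S (fun a => num (f a)) := by
  refine DF.comp (g := fun b : β => Shp.num b) ?_ hf
  refine ⟨fun _ _ => trivial, ?_⟩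
  rw [dfn_raw]
  refine ⟨_, Raw.tst (p := fun n => n.unpair.1 = n.unpair.2) (Primrec.eq.comp prim_left prim_right), fun x _ => ?_⟩
  show _ ↔ (Nat.pair (Shp.num x.1) (x.2)).unpair.1 = (Nat.pair (Shp.num x.1) (x.2)).unpair.2
  simp

/-- the code real of an object -/
theorem DF.re [Good S] {f : α → β} (hf : DF S f) : DF S (fun a => re (f a)) := by
  refine DF.comp (g := fun b : β => Shp.re b) ?_ hf
  refine DF.set (fun L hL => Shp.re_mem S L hL) ?_
  rw [dfn_raw]
  refine ⟨_, Raw.memR.sub prim_right prim_lfF, fun x _ => ?_⟩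
  rw [prf_lfF]
  show _ ↔ (Nat.pair (Shp.num x.1) (Encodable.encode x.2)).unpair.2 ∈ Z2.lf (Z2.jn (Shp.re x.1) ∅)
  simp

theorem DF.enc [Good S] {T : Type} [Primcodable T] [Shp T] [PShp T] {f : α → T} (hf : DF S f) :
    DF S (fun a => Encodable.encode (f a)) := DF.prim Primrec.encode hf

end

/-! ### Automation: `aesop` rules.  Prove definability goals by
`aesop (config := { enableSimp := false })` -/

theorem Dfn.true' {S : Str} [Good S] {α : Type} [Shp α] : Dfn S (fun _ : α => True) := dfn_true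
theorem Dfn.false' {S : Str} [Good S] {α : Type} [Shp α] : Dfn S (fun _ : α => False) := dfn_const False

attribute [aesop safe 1 apply (transparency := reducible)]
  Dfn.true' Dfn.false' Dfn.lt Dfn.le Dfn.eq Dfn.and Dfn.or Dfn.not Dfn.iff Dfn.isC Dfn.mem Dfn.lmem Dfn.pmem
  DF.id DF.constN DF.constR DF.fst DF.snd

attribute [aesop safe 2 apply (transparency := reducible)]
  DF.natPair DF.unp1 DF.unp2 DF.add DF.mul DF.sub DF.div DF.mod
  DF.sec DF.jn DF.lf DF.rt DF.len DF.gt DF.lre DF.cons DF.append DF.nil DF.num DF.re DF.enc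

attribute [aesop safe 20 apply (transparency := reducible)] DF.pair

attribute [aesop safe 5 apply (transparency := reducible)] Dfn.imp
attribute [aesop safe 6 apply (transparency := reducible)] Dfn.exL
attribute [aesop safe 7 apply (transparency := reducible)] Dfn.allL
attribute [aesop safe 8 apply (transparency := reducible)] Dfn.exR
attribute [aesop safe 9 apply (transparency := reducible)] Dfn.allR
attribute [aesop safe 10 apply (transparency := reducible)] Dfn.exP
attribute [aesop safe 11 apply (transparency := reducible)] Dfn.allP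
attribute [aesop safe 12 apply (transparency := reducible)] Dfn.exN
attribute [aesop safe 13 apply (transparency := reducible)] Dfn.allN

example {S : Str} [Good S] : Dfn S (fun x : ℕ × Set ℕ × List (Set ℕ) => ∃ n : ℕ, n + x.1 ∈ x.2.1 ∧
    ∀ X ∈ x.2.2, ∃ Y ∈ S.U, n ∈ Y ∧ (2 ∈ X → sec X n ∈ S.C) ∧ Y ≠ X) := by
  aesop (config := { enableSimp := false })

end Pool.Agent.Lib.Z2
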