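import Pool.Agent.Lib.Z2.Base

/-!
# Shapes and definable predicates (MP_8dbd20_lc)

`Shp α`: objects of type `α` are coded by a number and a real.
`Dfn S P`: the predicate `P : α → Prop` is definable over the structure `S`, with a parameter
from `S.Pm`, on the valid objects (all reals occurring in the object belong to `S.U`).
`DF S f`: the map `f` is definable (and maps valid objects to valid objects).
-/

namespace Pool.Agent.Lib.Z2

open Nat.Partrec (Code)

class Shp (α : Type) where
  num : α → ℕ
  re : α → Set ℕ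
  vl : Set (Set ℕ) → α → Prop
  rng : Fa
  inj : ∀ a b : α, num a = num b → re a = re b → a = b
  rng_spec : ∀ (S : Str) [Good S] (n : ℕ), ∀ X ∈ S.U,
    (Sat S rng n X ↔ ∃ b, vl S.U b ∧ num b = n ∧ re b = X)
  re_mem : ∀ (S : Str) [Good S] (b : α), vl S.U b → re b ∈ S.U

export Shp (num re vl)

/-! ### Codes for some simple maps -/

theorem exists_code_part {f : ℕ → Option ℕ} (hf : Primrec f) :
    ∃ c : Code, ∀ n m, m ∈ c.eval n ↔ f n = some m := by
  have h : Partrec (fun n => (f n : Part ℕ)) := Computable.ofOption hf.to_comp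
  obtain ⟨c, hc⟩ := Code.exists_code.1 (Partrec.nat_iff.1 h)
  refine ⟨c, fun n m => ?_⟩
  rw [hc]
  simp [Part.mem_coe]

noncomputable def codeN (f : ℕ → ℕ) (hf : Primrec f) : Code := (exists_code_nat hf).choose
theorem codeN_spec (f : ℕ → ℕ) (hf : Primrec f) (n : ℕ) : (codeN f hf).eval n = Part.some (f n) :=
  (exists_code_nat hf).choose_spec n
noncomputable def codeP (f : ℕ → Option ℕ) (hf : Primrec f) : Code := (exists_code_opt hf).choose
theorem codeP_spec (f : ℕ → Option ℕ) (hf : Primrec f) (X : Set ℕ) : pre (codeP f hf) X = prf f X :=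
  (exists_code_opt hf).choose_spec X
noncomputable def codeT (f : ℕ → Option ℕ) (hf : Primrec f) : Code := (exists_code_part hf).choose
theorem codeT_spec (f : ℕ → Option ℕ) (hf : Primrec f) (n m : ℕ) :
    m ∈ (codeT f hf).eval n ↔ f n = some m :=
  (exists_code_part hf).choose_spec n m

/-- substitution in a formula -/
noncomputable def Fa.sN (f : ℕ → ℕ) (hf : Primrec f) (φ : Fa) : Fa := .subN (codeN f hf) φ
noncomputable def Fa.sR (f : ℕ → Option ℕ) (hf : Primrec f) (φ : Fa) : Fa := .subR (codeP f hf) φ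
/-- a primitive recursive predicate -/
noncomputable def Fa.tst (p : ℕ → Prop) [DecidablePred p] (hp : PrimrecPred p) : Fa :=
  .subN (codeT (fun n => if p n then some 0 else none)
    (Primrec.ite hp (Primrec.const _) (Primrec.const _))) (.neg (.and .mem (.neg .mem)))
/-- the real is empty -/
noncomputable def Fa.emp : Fa := .neg (.exN (.sN _ prim_left .mem))

theorem sat_sN (S : Str) (f : ℕ → ℕ) (hf : Primrec f) (φ : Fa) (n : ℕ) (X : Set ℕ) :
    Sat S (φ.sN f hf) n X ↔ Sat S φ (f n) X := by
  simp only [Fa.sN, Sat, codeN_spec]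
  simp

theorem sat_sR (S : Str) (f : ℕ → Option ℕ) (hf : Primrec f) (φ : Fa) (n : ℕ) (X : Set ℕ) :
    Sat S (φ.sR f hf) n X ↔ Sat S φ n (prf f X) := by
  simp only [Fa.sR, Sat, codeP_spec]

theorem sat_tst (S : Str) (p : ℕ → Prop) [DecidablePred p] (hp : PrimrecPred p) (n : ℕ) (X : Set ℕ) :
    Sat S (Fa.tst p hp) n X ↔ p n := by
  simp only [Fa.tst, Sat, codeT_spec]
  by_cases h : p n
  · simp [h]
  · simp [h]

theorem sat_emp (S : Str) (n : ℕ) (X : Set ℕ) : Sat S Fa.emp n X ↔ X = ∅ := by
  simp only [Fa.emp, Sat, sat_sN]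
  constructor
  · intro h
    ext k
    simp only [Set.mem_empty_iff_false, iff_false]
    intro hk
    exact h ⟨k, by simpa using hk⟩
  · rintro rfl ⟨m, hm⟩
    exact hm

/-! ### Instances -/

def lfF : ℕ → Option ℕ := fun k => some (2 * k)
def rtF : ℕ → Option ℕ := fun k => some (2 * k + 1)
theorem prim_lfF : Primrec lfF := Primrec.option_some.comp prim_dbl
theorem prim_rtF : Primrec rtF := Primrec.option_some.comp prim_dbl1
theorem prf_lfF (X : Set ℕ) : prf lfF X = lf X := by
  ext k; simp [prf, lfF, lf]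
theorem prf_rtF (X : Set ℕ) : prf rtF X = rt X := by
  ext k; simp [prf, rtF, rt]

theorem Good.lf_mem (S : Str) [Good S] {X : Set ℕ} (hX : X ∈ S.U) : lf X ∈ S.U := by
  rw [← prf_lfF]; exact Good.prf_mem S prim_lfF hX
theorem Good.rt_mem (S : Str) [Good S] {X : Set ℕ} (hX : X ∈ S.U) : rt X ∈ S.U := by
  rw [← prf_rtF]; exact Good.prf_mem S prim_rtF hX

noncomputable instance instShpProd {α β : Type} [Shp α] [Shp β] : Shp (α × β) where
  num x := Nat.pair (num x.1) (num x.2)
  re x := jn (re x.1) (re x.2)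
  vl U x := vl U x.1 ∧ vl U x.2
  rng := .and (.sN _ prim_left (.sR _ prim_lfF (Shp.rng α))) (.sN _ prim_right (.sR _ prim_rtF (Shp.rng β)))
  inj := by
    rintro ⟨a, b⟩ ⟨a', b'⟩ h h'
    have h1 := Nat.pair_eq_pair.1 h
    have h2 := jn_inj h'
    rw [Shp.inj a a' h1.1 h2.1, Shp.inj b b' h1.2 h2.2]
  rng_spec := by
    intro S _ n X hX
    simp only [Sat, sat_sN, sat_sR, prf_lfF, prf_rtF]
    rw [Shp.rng_spec S _ _ (Good.lf_mem S hX), Shp.rng_spec S _ _ (Good.rt_mem S hX)]
    constructor
    · rintro ⟨⟨a, ha, ha1, ha2⟩, ⟨b, hb, hb1, hb2⟩⟩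
      refine ⟨(a, b), ⟨ha, hb⟩, ?_, ?_⟩
      · simp only [ha1, hb1]; exact Nat.pair_unpair n
      · simp only [ha2, hb2]; exact jn_lf_rt X
    · rintro ⟨⟨a, b⟩, ⟨ha, hb⟩, rfl, rfl⟩
      exact ⟨⟨a, ha, by simp, by simp⟩, ⟨b, hb, by simp, by simp⟩⟩
  re_mem := by
    rintro S _ ⟨a, b⟩ ⟨ha, hb⟩
    exact Good.uj _ (Shp.re_mem S a ha) _ (Shp.re_mem S b hb)

theorem enc_iff {T : Type} [Encodable T] (n : ℕ) :
    Encodable.encode (Encodable.decode (α := T) n) = n + 1 ↔ ∃ t : T, Encodable.encode t = n := by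
  constructor
  · intro h
    rcases hd : (Encodable.decode (α := T) n) with _ | t
    · rw [hd] at h; simp at h
    · rw [hd] at h; exact ⟨t, by simpa using h⟩
  · rintro ⟨t, rfl⟩
    simp [Encodable.encodek]

theorem enc_prim {T : Type} [Primcodable T] :
    PrimrecPred (fun n : ℕ => Encodable.encode (Encodable.decode (α := T) n) = n + 1) := by
  refine Primrec.eq.comp ?_ Primrec.succ
  exact Primrec.nat_iff.2 (Primcodable.prim T)

noncomputable instance (priority := low) instShpPrim {T : Type} [Primcodable T] : Shp T where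
  num t := Encodable.encode t
  re _ := ∅
  vl _ _ := True
  rng := .and (Fa.tst _ (enc_prim (T := T))) Fa.emp
  inj := fun a b h _ => Encodable.encode_injective h
  rng_spec := by
    intro S _ n X hX
    simp only [Sat, sat_tst, sat_emp, enc_iff]
    constructor
    · rintro ⟨⟨t, ht⟩, rfl⟩
      exact ⟨t, trivial, ht, rfl⟩
    · rintro ⟨t, _, ht, rfl⟩
      exact ⟨⟨t, ht⟩, rfl⟩
  re_mem := fun S _ b _ => Good.ue S

noncomputable instance instShpSet : Shp (Set ℕ) where
  num _ := 0
  re X := X
  vl U X := X ∈ U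
  rng := Fa.tst (fun n => n = 0) (Primrec.eq.comp Primrec.id (Primrec.const 0))
  inj := fun a b _ h => h
  rng_spec := by
    intro S _ n X hX
    simp only [sat_tst]
    constructor
    · rintro rfl
      exact ⟨X, hX, rfl, rfl⟩
    · rintro ⟨b, _, h, _⟩
      exact h.symm
  re_mem := fun S _ b h => h

/-- The real coding a list of reals. -/
def lre (L : List (Set ℕ)) : Set ℕ := {k | ∃ X, L[k.unpair.1]? = some X ∧ k.unpair.2 ∈ X}

theorem sec_lre (L : List (Set ℕ)) (i : ℕ) (h : i < L.length) : sec (lre L) i = L[i] := by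
  ext m
  simp [sec, lre, h]

def consF : ℕ → Option ℕ := fun k =>
  if k.unpair.1 = 0 then some (2 * k.unpair.2) else some (2 * Nat.pair (k.unpair.1 - 1) k.unpair.2 + 1)

theorem prim_consF : Primrec consF := by
  refine Primrec.ite (Primrec.eq.comp prim_left (Primrec.const 0)) ?_ ?_
  · exact Primrec.option_some.comp (prim_dbl.comp prim_right)
  · exact Primrec.option_some.comp (prim_dbl1.comp
      (Primrec₂.natPair.comp (Primrec.nat_sub.comp prim_left (Primrec.const 1)) prim_right))

theorem lre_cons (X : Set ℕ) (L : List (Set ℕ)) : lre (X :: L) = prf consF (jn X (lre L)) := by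
  ext k
  simp only [lre, prf, Set.mem_ofPred_eq, consF]
  rcases h : k.unpair.1 with _ | i
  · simp [mem_jn_even]
  · simp [mem_jn_odd]

theorem lre_mem (S : Str) [Good S] (L : List (Set ℕ)) (h : ∀ X ∈ L, X ∈ S.U) : lre L ∈ S.U := by
  induction L with
  | nil =>
    have : lre [] = ∅ := by ext k; simp [lre]
    rw [this]; exact Good.ue S
  | cons X L ih =>
    rw [lre_cons]
    exact Good.prf_mem S prim_consF (Good.uj _ (h X (by simp)) _ (ih (fun Y hY => h Y (by simp [hY]))))

def secF (i : ℕ) : ℕ → Option ℕ := fun k => some (Nat.pair i k)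
theorem prim_secF (i : ℕ) : Primrec (secF i) :=
  Primrec.option_some.comp (Primrec₂.natPair.comp (Primrec.const i) Primrec.id)
theorem prf_secF (i : ℕ) (X : Set ℕ) : prf (secF i) X = sec X i := by
  ext k; simp [prf, secF, sec]
theorem Good.sec_mem (S : Str) [Good S] {X : Set ℕ} (hX : X ∈ S.U) (i : ℕ) : sec X i ∈ S.U := by
  rw [← prf_secF]; exact Good.prf_mem S (prim_secF i) hX

/-- formula: all elements of the real have first coordinate less than the number. -/
noncomputable def Fa.bd : Fa :=
  .neg (.exN (.and (.sN _ prim_left .mem)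
    (Fa.tst (fun k => ¬ k.unpair.1.unpair.1 < k.unpair.2)
      (PrimrecPred.not (Primrec.nat_lt.comp (prim_left.comp prim_left) prim_right)))))

theorem sat_bd (S : Str) (n : ℕ) (X : Set ℕ) : Sat S Fa.bd n X ↔ ∀ k ∈ X, k.unpair.1 < n := by
  simp only [Fa.bd, Sat, sat_sN, sat_tst]
  constructor
  · intro h k hk
    by_contra hc
    exact h ⟨k, by simpa using hk, by simpa using hc⟩
  · rintro h ⟨m, hm, hc⟩
    simp at hm hc
    exact absurd (h m hm) (by omega)

noncomputable instance instShpList : Shp (List (Set ℕ)) where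
  num L := L.length
  re L := lre L
  vl U L := ∀ X ∈ L, X ∈ U
  rng := Fa.bd
  inj := by
    intro L L' h h'
    refine List.ext_getElem h (fun i h1 h2 => ?_)
    rw [← sec_lre L i h1, ← sec_lre L' i h2, h']
  rng_spec := by
    intro S _ n X hX
    rw [sat_bd]
    constructor
    · intro h
      refine ⟨(List.range n).map (fun i => sec X i), ?_, by simp, ?_⟩
      · intro Y hY
        obtain ⟨i, -, rfl⟩ := List.mem_map.1 hY
        exact Good.sec_mem S hX i
      · ext k
        simp only [lre, Set.mem_ofPred_eq]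
        constructor
        · rintro ⟨Y, hY, hk⟩
          simp at hY
          obtain ⟨i, hi, rfl⟩ := hY
          rw [List.getElem?_range] at hi
          · simp at hi; subst hi
            simpa [sec] using hk
          · by_contra hc
            rw [List.getElem?_eq_none (by simpa using hc)] at hi
            simp at hi
        · intro hk
          have := h k hk
          refine ⟨sec X k.unpair.1, ?_, by simpa [sec] using hk⟩
          simp [List.getElem?_range this]
    · rintro ⟨L, hL, rfl, rfl⟩ k hk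
      obtain ⟨X, hX, hk⟩ := hk
      exact (List.getElem?_eq_some_iff.1 hX).1
  re_mem := fun S _ b h => lre_mem S b h

end Pool.Agent.Lib.Z2
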